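import Pool.Agent.Lib.DK.Pub.Pub
import Pool.Agent.Lib.DT.O.AllA

/-!
# MP_d0239a_nt: from `ThmDK` and `ThmDT` to the joint public form (`p = 2` and `p = 3`)

`Pool.Agent.MuP.weber_joint`: `ThmDK` and `ThmDT` give the joint theorem. `d` is squarefree, `K = ℚ(√-d)`;
`2` splits in `K` if and only if `d` is `7` modulo `8`, `3` splits in `K` if and only if `d` is `2` modulo `3`;
`ℤ + ℤ ω₂` is the ring of integers of `K`.
-/

set_option autoImplicit false

noncomputable section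

namespace Pool.Agent.DT

open Pool.Agent.MuZ

/-- The extended form, for any prime number `p` and any field `W`. -/
theorem extW (p : ℕ) [Fact p.Prime] (W : IntermediateField ℚ Om)
    (h : ∀ F : IntermediateField ℚ Om, FiniteDimensional ℚ F → F ≤ W → XFinGen p (cyc p F))
    (F F0 L : IntermediateField ℚ Om) (σ : Gal(Om/ℚ))
    (hL : FiniteDimensional ℚ L) (hT : ∀ x ∈ F0, σ x ∈ W) (hF0 : F0 ≤ L) (hF : F ≤ L)
    (hst : ∀ τ ∈ F0.fixingSubgroup, ∀ x ∈ L, τ x ∈ L) (a : ℕ)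
    (hdeg : Module.finrank ℚ L = p ^ a * Module.finrank ℚ F0) : XFinGen p (cyc p F) := by
  have hF0f : FiniteDimensional ℚ F0 := by
    have hpos : 0 < Module.finrank ℚ L := Module.finrank_pos
    rw [hdeg] at hpos
    exact Module.finite_of_finrank_pos (Nat.pos_of_mul_pos_left hpos)
  have hmap : ∀ x, x ∈ F0 ↔ σ x ∈ F0.map (σ : Om →ₐ[ℚ] Om) := by
    intro x
    rw [IntermediateField.mem_map]
    constructor
    · intro hx
      exact ⟨x, hx, rfl⟩
    · rintro ⟨y, hy, hxy⟩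
      have e : y = x := σ.injective hxy
      rw [← e]
      exact hy
  have hF0' : FiniteDimensional ℚ (F0.map (σ : Om →ₐ[ℚ] Om)) :=
    LinearEquiv.finiteDimensional (F0.intermediateFieldMap σ).toLinearEquiv
  have hle : F0.map (σ : Om →ₐ[ℚ] Om) ≤ W := by
    rintro _ ⟨x, hx, rfl⟩
    exact hT x hx
  have hX0 : XFinGen p (cyc p F0) := DK.XFin_conj p σ F0 _ hmap (h _ hF0' hle)
  have hA : ThmA := MuZ.thmA MuZ.res MuZ.ext MuZ.alg MuZ.cliff MuZ.crit MuZ.conj MuZ.ram MuZ.frob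
    MuZ.pow MuZ.tot MuZ.orb MuZ.sup MuZ.fld MuZ.fwd MuZ.bwd
  have h1 : XFinGen p (cyc p L) :=
    (DI.PI.pJPe hA p F0 F0 L hL le_rfl hF0 hst ⟨a, DI.pow_fix p F0 L hL hF0 hst a hdeg⟩).2 hX0
  exact DI.mono p F L hL hF h1

end Pool.Agent.DT

namespace Pool.Agent.MuP

open Pool.Agent.DT (SqT OO Dk toC Lam LP wC)

/-- The field `WeberField ι Λ`, up to the choice of the embedding, is a subfield of `DT.Wf k t`. -/
theorem weberField_le3 (k t : ℕ) [SqT k t] (c : ℤ) (Λ : PeriodPair) (h1 : Λ.ω₁ = 1)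
    (hw : Λ.ω₂ = wC k t - c) (ι : Omega →+* ℂ)
    (σ : Gal(AlgebraicClosure ℚ/ℚ)) (hσ : ∀ x, DI.io (σ x) = ι x) (x : AlgebraicClosure ℚ)
    (hx : x ∈ (show IntermediateField ℚ (AlgebraicClosure ℚ) from WeberField ι Λ)) :
    σ x ∈ DT.Wf k t := by
  have hlat : Λ.lattice = (LP (⊤ : Ideal (OO k t))).lattice := by
    ext z
    have e1 : z ∈ (LP (⊤ : Ideal (OO k t))).lattice ↔ z ∈ Lam (⊤ : Ideal (OO k t)) := by
      rw [← DT.aL1 k t ⊤ top_ne_bot]
      rfl
    rw [e1, ((DT.aL2 k t).2.2.2.2.2.1 z), PeriodPair.mem_lattice, h1, hw]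
    constructor
    · rintro ⟨m, n, rfl⟩
      refine ⟨⟨m - n * c, n⟩, ?_⟩
      rw [DT.toC_apply]
      push_cast
      ring
    · rintro ⟨v, rfl⟩
      refine ⟨v.re + v.im * c, v.im, ?_⟩
      rw [DT.toC_apply]
      push_cast
      ring
  obtain ⟨g2, g3, hp⟩ := DK.pair_congr _ _ hlat
  have hmem : ∀ z : ℂ, z ∈ Λ.lattice ↔ z ∈ Lam (⊤ : Ideal (OO k t)) := by
    intro z
    rw [hlat, ← DT.aL1 k t ⊤ top_ne_bot]
    rfl
  have hle : (show IntermediateField ℚ (AlgebraicClosure ℚ) from WeberField ι Λ) ≤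
      (DT.Wf k t).comap (σ : AlgebraicClosure ℚ →ₐ[ℚ] AlgebraicClosure ℚ) := by
    refine (IntermediateField.adjoin_le_iff (F := ℚ) (E := AlgebraicClosure ℚ)).2 ?_
    rintro a ha
    change σ a ∈ DT.Wf k t
    rw [Set.mem_ofPred_eq, ← hσ a] at ha
    rcases ha with ha | ha | ⟨z, ⟨hz, n, hn, hnz⟩, ha⟩
    · rw [h1, div_one, hw] at ha
      have e : DT.wO k t = σ a + c := by
        have e1 : DI.io (σ a + c) = wC k t := by
          rw [map_add, ha, map_intCast]
          ring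
        rw [← DI.ofC_io (σ a + c), e1]
        rfl
      have h3 : DT.wO k t ∈ DT.Wf k t := IntermediateField.subset_adjoin _ _ (Or.inl (Or.inl rfl))
      have h4 : σ a = DT.wO k t - c := by
        rw [e]
        ring
      rw [h4]
      exact sub_mem h3 (intCast_mem _ c)
    · have e : DI.ofC (DT.jC k t) = σ a / 1728 := by
        rw [← DI.ofC_io (σ a / 1728)]
        congr 1
        rw [map_div₀, ha]
        unfold jInv DT.jC
        rw [g2, g3]
        have e2 : DI.io 1728 = 1728 := map_ofNat _ _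
        rw [e2]
        ring
      have h3 : DI.ofC (DT.jC k t) ∈ DT.Wf k t :=
        IntermediateField.subset_adjoin _ _ (Or.inl (Or.inr rfl))
      rw [e] at h3
      have h4 : σ a = σ a / 1728 * 1728 := by
        field_simp
      rw [h4]
      exact mul_mem h3 (natCast_mem _ 1728)
    · have e : DI.ofC (DT.weC k t z) = σ a := by
        rw [← DI.ofC_io (σ a)]
        congr 1
        rw [ha]
        unfold weber DT.weC
        rw [g2, g3, hp]
        rfl
      rw [← e]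
      refine IntermediateField.subset_adjoin _ _ (Or.inr ⟨z, ?_, ?_, rfl⟩)
      · exact ((DT.aL2 k t).2.2.2.2.2.2.2.2 ⊤ z top_ne_bot).2 ⟨n, hn, (hmem _).1 hnz⟩
      · exact fun hz' => hz ((hmem z).2 hz')
  exact hle hx

/-- The form for `p = 3` and given `k`, `t`. -/
theorem weber_of3 (h : DT.ThmDT) (k t : ℕ) [SqT k t] (c : ℤ) (Λ : PeriodPair)
    (h1 : Λ.ω₁ = 1) (hw : Λ.ω₂ = wC k t - c) (ι : Omega →+* ℂ)
    (F F₀ L : Fd) (hL : IsNF L) (h0 : F₀ ≤ WeberField ι Λ) (h0L : F₀ ≤ L) (hFL : F ≤ L)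
    (hGal : GalOver F₀ L) (a : ℕ) (hdeg : deg L = 3 ^ a * deg F₀) : XFinGen 3 (cyc 3 F) := by
  haveI : Fact (Nat.Prime 3) := ⟨Nat.prime_three⟩
  obtain ⟨σ, hσ⟩ := DK.exists_gal ι
  exact (XFinGen_cyc_iff 3 F).2 (DT.extW 3 (DT.Wf k t) (h k t) F F₀ L σ hL
    (fun x hx => weberField_le3 k t c Λ h1 hw ι σ hσ x (h0 x hx)) h0L hFL hGal a hdeg)

/-- **The joint theorem, from `ThmDK` and `ThmDT`.** Let `d` be squarefree, `K = ℚ(√-d)`, and let `p = 2` or
`p = 3` split in `K`. Let `Λ = ℤ + ℤ ω₂` be the ring of integers of `K`, `F₀` a number field which is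
contained in the field generated by `ω₂`, `j(Λ)` and the values of the Weber function at the torsion points
of `ℂ/Λ`, and `L / F₀` a finite Galois extension whose degree is a power of `p`. Then `X(F^cyc)` is finitely
generated over `ℤ_p` for all subfields `F` of `L`. -/
theorem weber_joint (hK : DK.ThmDK) (hT : DT.ThmDT) (p d : ℕ) (hd : Squarefree d)
    (hp : p = 2 ∧ d % 8 = 7 ∨ p = 3 ∧ d % 3 = 2) (Λ : PeriodPair) (h1 : Λ.ω₁ = 1)
    (h2 : Λ.ω₂ = if d % 4 = 3 then (1 + √(d : ℝ) * Complex.I) / 2 else √(d : ℝ) * Complex.I)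
    (ι : Omega →+* ℂ) (F F₀ L : Fd) (hL : IsNF L) (h0 : F₀ ≤ WeberField ι Λ) (h0L : F₀ ≤ L)
    (hFL : F ≤ L) (hGal : GalOver F₀ L) (a : ℕ) (hdeg : deg L = p ^ a * deg F₀) :
    XFinGen p (cyc p F) := by
  rcases hp with ⟨rfl, h8⟩ | ⟨rfl, h3⟩
  · rw [if_pos (by omega)] at h2
    exact weber_of hK d hd h8 Λ h1 h2 ι F F₀ L hL h0 h0L hFL hGal a hdeg
  · by_cases h4 : d % 4 = 3
    · rw [if_pos h4] at h2
      have hDk : Dk ((d + 1) / 12) 1 = d := by
        unfold Dk
        omega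
      haveI : SqT ((d + 1) / 12) 1 := ⟨Or.inl ⟨rfl, by omega, by
        have e : 12 * ((d + 1) / 12) - 1 = d := by omega
        rw [e]
        exact hd⟩⟩
      refine weber_of3 hT ((d + 1) / 12) 1 0 Λ h1 ?_ ι F F₀ L hL h0 h0L hFL hGal a hdeg
      rw [h2]
      unfold wC
      rw [hDk]
      apply Complex.ext
      · simp
      · simp
    · rw [if_neg h4] at h2
      have hDk : Dk ((d + 4) / 3) 4 = 4 * d := by
        unfold Dk
        omega
      have hd2 : 2 ≤ d := by omega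
      haveI : SqT ((d + 4) / 3) 4 := ⟨Or.inr ⟨rfl, by omega, by
        have e : 3 * ((d + 4) / 3) - 4 = d := by omega
        rw [e]
        exact hd, by omega⟩⟩
      refine weber_of3 hT ((d + 4) / 3) 4 2 Λ h1 ?_ ι F F₀ L hL h0 h0L hFL hGal a hdeg
      rw [h2]
      unfold wC
      rw [hDk]
      have e : √((4 * d : ℕ) : ℝ) = 2 * √(d : ℝ) := by
        push_cast
        rw [Real.sqrt_mul (by norm_num), show (4 : ℝ) = 2 ^ 2 by norm_num, Real.sqrt_sq (by norm_num)]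
      rw [e]
      apply Complex.ext
      · simp
        norm_num
      · simp

end Pool.Agent.MuP
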